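import Mathlib

set_option autoImplicit false

namespace Pool.Agent.H.MP_b6c00a_lc

abbrev Rr := ℕ → ℕ → Prop

def ot {V : Type} [LE V] (L : ℕ) (f : ℕ → V) (a b : ℕ) : Prop := a < L ∧ b < L ∧ f a ≤ f b

def il (s y : ℕ → ℚ) (k : ℕ) : ℚ := if k % 2 = 0 then s (k / 2) else y (k / 2)

def ev (r : Rr) (a b : ℕ) : Prop := r (2 * a) (2 * b)

def od (r : Rr) (a b : ℕ) : Prop := r (2 * a + 1) (2 * b + 1)

@[simp] lemma il_ev (s y : ℕ → ℚ) (k : ℕ) : il s y (2 * k) = s k := by simp [il]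

@[simp] lemma il_od (s y : ℕ → ℚ) (k : ℕ) : il s y (2 * k + 1) = y k := by
  rw [il, if_neg (by omega)]; congr 1; omega

lemma ev_ot {V : Type} [LE V] (L : ℕ) (f : ℕ → V) : ev (ot (2 * L) f) = ot L fun k => f (2 * k) := by
  ext a b; simp [ev, ot]

lemma od_ot {V : Type} [LE V] (L : ℕ) (f : ℕ → V) :
    od (ot (2 * L) f) = ot L fun k => f (2 * k + 1) := by
  ext a b
  exact and_congr (by omega) (and_congr_left' (by omega))

lemma ext1 (S T : Finset ℕ) (f g : ℕ → ℚ) (h : ∀ a ∈ S, ∀ b ∈ S, f a ≤ f b ↔ g a ≤ g b) :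
    ∃ g' : ℕ → ℚ, (∀ a ∈ S, g' a = g a) ∧ ∀ a ∈ S ∪ T, ∀ b ∈ S ∪ T, f a ≤ f b ↔ g' a ≤ g' b := by
  induction T using Finset.induction_on with
  | empty => exact ⟨g, fun _ _ => rfl, by simpa using h⟩
  | insert x T _ ih =>
    obtain ⟨g, a, h⟩ := ih
    rw [Finset.union_insert]
    by_cases m : x ∈ S ∪ T
    · exact ⟨g, a, by rwa [Finset.insert_eq_of_mem m]⟩
    obtain ⟨q, e⟩ : ∃ q, ∀ a ∈ S ∪ T, (f a ≤ f x ↔ g a ≤ q) ∧ (f x ≤ f a ↔ q ≤ g a) := by
      by_cases k : ∃ b ∈ S ∪ T, f b = f x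
      · obtain ⟨b, k, l⟩ := k
        exact ⟨g b, fun a i => l ▸ ⟨h _ i _ k, h _ k _ i⟩⟩
      obtain ⟨q, i, j⟩ := Order.exists_between_finsets (((S ∪ T).filter (f · < f x)).image g)
        (((S ∪ T).filter (f x < f ·)).image g) (by
          simp only [Finset.mem_image, Finset.mem_filter]
          rintro _ ⟨a, ⟨i, j⟩, rfl⟩ _ ⟨b, ⟨k, l⟩, rfl⟩
          exact lt_of_not_ge fun m => (j.trans l).not_ge ((h _ k _ i).2 m))
      refine ⟨q, fun a m => ?_⟩
      rcases lt_trichotomy (f a) (f x) with l | l | l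
      · have := i _ (Finset.mem_image_of_mem g (Finset.mem_filter.2 ⟨m, l⟩))
        exact ⟨iff_of_true l.le this.le, iff_of_false l.not_ge this.not_ge⟩
      · exact (k ⟨a, m, l⟩).elim
      · have := j _ (Finset.mem_image_of_mem g (Finset.mem_filter.2 ⟨m, l⟩))
        exact ⟨iff_of_false l.not_ge this.not_ge, iff_of_true l.le this.le⟩
    have u (b : ℕ) (i : b ∈ S ∪ T) : Function.update g x q b = g b :=
      Function.update_of_ne (fun k : b = x => m (k ▸ i)) _ _
    refine ⟨Function.update g x q, fun b i => (u b (Finset.mem_union_left _ i)).trans (a b i),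
      fun a i b j => ?_⟩
    rw [Finset.mem_insert] at i j
    rcases j with rfl | j <;> rcases i with rfl | i
    · simp
    · rw [u _ i, Function.update_self]; exact (e _ i).1
    · rw [u _ j, Function.update_self]; exact (e _ j).2
    · rw [u _ i, u _ j]; exact h _ i _ j

lemma ext2 {L : ℕ} {f s : ℕ → ℚ} (h : ev (ot (2 * L) f) = ot L s) :
    ∃ y, ot (2 * L) (il s y) = ot (2 * L) f := by
  rw [ev_ot] at h
  obtain ⟨g, a, b⟩ := ext1 ((Finset.range L).image (2 * ·)) (Finset.range (2 * L)) f (fun k => s (k / 2))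
    (by
      simp only [Finset.mem_image, Finset.mem_range]
      rintro _ ⟨a, i, rfl⟩ _ ⟨b, j, rfl⟩
      simpa [ot, i, j] using congrFun₂ h a b)
  have e (k : ℕ) (i : k < 2 * L) : il s (fun k => g (2 * k + 1)) k = g k := by
    obtain ⟨k, rfl | rfl⟩ := Nat.even_or_odd' k
    · rw [il_ev, a _ (Finset.mem_image_of_mem _ (Finset.mem_range.2 (by omega)))]; simp
    · rw [il_od]
  refine ⟨fun k => g (2 * k + 1), funext₂ fun x y => propext (and_congr_right fun i =>
    and_congr_right fun j => ?_)⟩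
  rw [e _ i, e _ j]
  exact (b _ (by simp [i]) _ (by simp [j])).symm

def dg (B z k : ℕ) : ℕ := z / B ^ k % B

lemma dg_ex (B L : ℕ) (g : ℕ → ℕ) (h : ∀ k < L, g k < B) : ∃ z < B ^ L, ∀ k < L, dg B z k = g k := by
  induction L generalizing g with
  | zero => exact ⟨0, by simp, by simp⟩
  | succ L ih =>
    obtain ⟨z, a, b⟩ := ih (fun k => g (k + 1)) fun k l => h _ (by omega)
    have e := h 0 (by omega)
    refine ⟨g 0 + B * z, by rw [pow_succ']; nlinarith, fun k l => ?_⟩
    cases k with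
    | zero => simp [dg, Nat.mod_eq_of_lt e]
    | succ k =>
      rw [← b k (by omega), dg, dg, pow_succ', ← Nat.div_div_eq_div_mul,
        Nat.add_mul_div_left _ _ (by omega), Nat.div_eq_of_lt e, zero_add]

lemma cmpr {B L : ℕ} (l : L ≤ B) (f : ℕ → ℚ) : ∃ z < B ^ L, ot L (dg B z) = ot L f := by
  obtain ⟨z, a, b⟩ := dg_ex B L (fun a => ((Finset.range L).filter (f · < f a)).card) fun k i =>
    lt_of_lt_of_le (Finset.card_lt_card ⟨Finset.filter_subset _ _, fun h => by
      simpa using h (Finset.mem_range.2 i)⟩) (by simpa using l)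
  refine ⟨z, a, funext₂ fun x y => propext (and_congr_right fun i => and_congr_right fun j => ?_)⟩
  rw [b _ i, b _ j]
  refine ⟨fun h => le_of_not_gt fun k => h.not_gt (Finset.card_lt_card ⟨fun c => ?_, fun h => ?_⟩),
    fun h => Finset.card_le_card fun c => ?_⟩
  · simp only [Finset.mem_filter]; exact And.imp_right fun m => m.trans k
  · simpa using h (Finset.mem_filter.2 ⟨Finset.mem_range.2 j, k⟩)
  · simp only [Finset.mem_filter]; exact And.imp_right fun m => m.trans_le h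

lemma ot_cast (L : ℕ) (g : ℕ → ℕ) : ot L g = ot L fun k => (g k : ℚ) := by
  ext a b; simp [ot]

def N' := ℕ

lemma repr (le : ℕ → ℕ → Prop) (a : ∀ a b, le a b ∨ le b a) (b : ∀ a b c, le a b → le b c → le a c) :
    ∃ v : ℕ → ℚ, ∀ a b, le a b ↔ v a ≤ v b := by
  classical
  letI : Preorder N' := { le := le, le_refl := fun x => (a x x).elim id id, le_trans := b }
  haveI : Std.Total (α := N') (· ≤ ·) := ⟨a⟩
  haveI : Countable N' := inferInstanceAs (Countable ℕ)
  haveI : Countable (Antisymmetrization N' (· ≤ ·)) := Quotient.countable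
  obtain ⟨e⟩ := Order.embedding_from_countable_to_dense (α := Antisymmetrization N' (· ≤ ·)) (β := ℚ)
  exact ⟨fun x => e (toAntisymmetrization (α := N') _ x), fun x y => by
    rw [e.le_iff_le, toAntisymmetrization_le_toAntisymmetrization_iff]; rfl⟩

end Pool.Agent.H.MP_b6c00a_lc
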