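import Mathlib

set_option autoImplicit false

namespace Pool.Agent.H.MP_b6c00a_lc

open Relation

/-- Finite game trees for `p` players. Each node carries the set `P` of letters true at it, end
nodes carry a name `o`, inner nodes a turn label and `k + 1` children. -/
inductive GT (p : ℕ)
  | leaf (P : ℕ → Prop) (o : ℕ)
  | node (P : ℕ → Prop) (i : Fin p) (k : ℕ) (c : Fin (k + 1) → GT p)

variable {p : ℕ}

def GT.lab : GT p → ℕ → Prop
  | .leaf P _ => P
  | .node P _ _ _ => P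

def Mv (x y : GT p) : Prop := ∃ P i k c t, x = .node P i k c ∧ c t = y

def Tn (x : GT p) (i : Fin p) : Prop := ∃ P k c, x = .node P i k c

def En (x : GT p) (o : ℕ) : Prop := ∃ P, x = .leaf P o

/-- Moves active at stage `n` of relational Backward Induction. -/
def Act (le : Fin p → ℕ → ℕ → Prop) : ℕ → GT p → GT p → Prop
  | 0 => Mv
  | n + 1 => fun x y => Act le n x y ∧ ¬ ∃ i z, Tn x i ∧ Act le n x z ∧ z ≠ y ∧ ∀ u v a b,
      ReflTransGen (Act le n) y u → En u a → ReflTransGen (Act le n) z v → En v b →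
        le i a b ∧ ¬ le i b a

def Best (le : Fin p → ℕ → ℕ → Prop) (x y : GT p) : Prop := ∀ n, Act le n x y

inductive Rl (p : ℕ)
  | mv
  | mvp
  | best
  | bests
  | mvi (i : Fin p)
  | pref (i : Fin p)

inductive Fm (p : ℕ)
  | atom (a : ℕ)
  | fin
  | turn (i : Fin p)
  | neg (φ : Fm p)
  | and (φ ψ : Fm p)
  | dia (r : Rl p) (φ : Fm p)

def rel (le : Fin p → ℕ → ℕ → Prop) (T : GT p) : Rl p → GT p → GT p → Prop
  | .mv => Mv
  | .mvp => TransGen Mv
  | .best => Best le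
  | .bests => ReflTransGen (Best le)
  | .mvi i => fun x y => Tn x i ∧ Mv x y
  | .pref i => fun x y => ∃ a b, En x a ∧ En y b ∧ ReflTransGen Mv T y ∧ le i a b

def Sat (le : Fin p → ℕ → ℕ → Prop) (T : GT p) : Fm p → GT p → Prop
  | .atom a, x => x.lab a
  | .fin, x => ∃ o, En x o
  | .turn i, x => Tn x i
  | .neg φ, x => ¬ Sat le T φ x
  | .and φ ψ, x => Sat le T φ x ∧ Sat le T ψ x
  | .dia r φ, x => ∃ y, rel le T r x y ∧ Sat le T φ y

def Valid (φ : Fm p) : Prop :=
  ∀ le : Fin p → ℕ → ℕ → Prop, (∀ i a b, le i a b ∨ le i b a) →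
    (∀ i a b c, le i a b → le i b c → le i a c) → ∀ T x, ReflTransGen Mv T x → Sat le T φ x

def Fm.code : Fm p → ℕ
  | .atom a => 9 * (a + p + 1)
  | .fin => 0
  | .turn i => 9 * (i + 1)
  | .neg φ => 9 * φ.code + 1
  | .and φ ψ => 9 * Nat.pair φ.code ψ.code + 2
  | .dia .mv φ => 9 * φ.code + 3
  | .dia .mvp φ => 9 * φ.code + 4
  | .dia .best φ => 9 * φ.code + 5
  | .dia .bests φ => 9 * φ.code + 6
  | .dia (.mvi i) φ => 9 * (p * φ.code + i) + 7
  | .dia (.pref i) φ => 9 * (p * φ.code + i) + 8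

end Pool.Agent.H.MP_b6c00a_lc
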