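import Pool.Agent.H.MP_b6c00a_lc.A

set_option autoImplicit false

namespace Pool.Agent.H.MP_b6c00a_lc

open Relation Filter

variable {p : ℕ} {P : ℕ → Prop} {i : Fin p} {k : ℕ} {c : Fin (k + 1) → GT p} {o : ℕ}

@[simp] lemma mv_node {y : GT p} : Mv (.node P i k c) y ↔ ∃ t, c t = y :=
  ⟨fun ⟨_, _, _, _, t, a, b⟩ => by cases a; exact ⟨t, b⟩, fun ⟨t, a⟩ => ⟨_, _, _, _, t, rfl, a⟩⟩

@[simp] lemma mv_leaf {y : GT p} : ¬ Mv (.leaf P o) y := fun ⟨_, _, _, _, _, a, _⟩ => by cases a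

@[simp] lemma tn_node {j : Fin p} : Tn (.node P i k c) j ↔ i = j :=
  ⟨fun ⟨_, _, _, a⟩ => by cases a; rfl, fun a => ⟨P, k, c, by rw [a]⟩⟩

@[simp] lemma tn_leaf : ¬ Tn (.leaf P o) i := fun ⟨_, _, _, a⟩ => by cases a

@[simp] lemma en_node : ¬ En (.node P i k c) o := fun ⟨_, a⟩ => by cases a

@[simp] lemma en_leaf {a : ℕ} : En (.leaf P o : GT p) a ↔ o = a :=
  ⟨fun ⟨_, a⟩ => by cases a; rfl, fun a => ⟨P, by rw [a]⟩⟩

variable {le : Fin p → ℕ → ℕ → Prop}

lemma act_anti {m n : ℕ} (h : m ≤ n) {x y : GT p} (a : Act le n x y) : Act le m x y := by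
  induction n, h using Nat.le_induction with
  | base => exact a
  | succ n _ ih => exact ih a.1

lemma Best.mv {x y : GT p} (a : Best le x y) : Mv x y := a 0

lemma rm {r s : GT p → GT p → Prop} {x y : GT p} (a : ReflTransGen r x y)
    (h : ∀ x y, r x y → s x y) : ReflTransGen s x y := ReflTransGen.mono h _ _ a

lemma rt_leaf {r : GT p → GT p → Prop} (h : ∀ x y, r x y → Mv x y) {y : GT p} :
    ReflTransGen r (.leaf P o) y ↔ .leaf P o = y :=
  ⟨fun a => a.cases_head.resolve_right fun ⟨_, b, _⟩ => mv_leaf (h _ _ b), fun a => a ▸ .refl⟩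

lemma rt_node {r : GT p → GT p → Prop} (h : ∀ x y, r x y → Mv x y) {y : GT p} :
    ReflTransGen r (.node P i k c) y ↔ .node P i k c = y ∨
      ∃ t, r (.node P i k c) (c t) ∧ ReflTransGen r (c t) y :=
  ⟨fun a => a.cases_head.imp_right fun ⟨_, b, d⟩ => by
    obtain ⟨t, rfl⟩ := mv_node.1 (h _ _ b)
    exact ⟨t, b, d⟩, fun a => a.elim (· ▸ .refl) fun ⟨_, b, d⟩ => .head b d⟩

lemma stab (x : GT p) :
    ∀ᶠ n in atTop, ∀ y, ReflTransGen Mv x y → ∀ z, Act le n y z → Best le y z := by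
  induction x with
  | leaf P o =>
    refine .of_forall fun n y a z b => ?_
    obtain rfl := (rt_leaf fun _ _ => id).1 a
    exact (mv_leaf (act_anti n.zero_le b)).elim
  | node P i k c ih =>
    have (t : Fin (k + 1)) : ∀ᶠ n in atTop, Act le n (.node P i k c) (c t) →
        Best le (.node P i k c) (c t) := by
      by_cases h : Best le (.node P i k c) (c t)
      · exact .of_forall fun _ _ => h
      · obtain ⟨N, h⟩ := not_forall.1 h
        exact eventually_atTop.2 ⟨N, fun n l a => (h (act_anti l a)).elim⟩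
    filter_upwards [eventually_all.2 ih, eventually_all.2 this] with n a b y d z e
    rcases (rt_node fun _ _ => id).1 d with rfl | ⟨t, -, d⟩
    · obtain ⟨t, rfl⟩ := mv_node.1 (act_anti n.zero_le e)
      exact b t e
    · exact a t y d z e

def R (le : Fin p → ℕ → ℕ → Prop) (x : GT p) : Set ℕ :=
  {a | ∃ u, ReflTransGen (Best le) x u ∧ En u a}

lemma R_leaf : R le (.leaf P o) = {o} := by
  ext a
  simp [R, rt_leaf fun _ _ => Best.mv (le := le), eq_comm]

lemma R_node {a : ℕ} : a ∈ R le (.node P i k c) ↔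
    ∃ t, Best le (.node P i k c) (c t) ∧ a ∈ R le (c t) := by
  simp only [R, rt_node fun _ _ => Best.mv (le := le), Set.mem_ofPred_eq]
  constructor
  · rintro ⟨u, rfl | ⟨t, b, d⟩, e⟩
    · exact (en_node e).elim
    · exact ⟨t, b, u, d, e⟩
  · rintro ⟨t, b, u, d, e⟩
    exact ⟨u, .inr ⟨t, b, d⟩, e⟩

lemma R_fin (x : GT p) : (R le x).Finite := by
  induction x with
  | leaf P o => simp [R_leaf]
  | node P i k c ih =>
    exact (Set.finite_iUnion ih).subset fun a h =>
      let ⟨t, _, b⟩ := R_node.1 h; Set.mem_iUnion.2 ⟨t, b⟩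

abbrev LV (v : Fin p → ℕ → ℚ) (i : Fin p) (a b : ℕ) : Prop := v i a ≤ v i b

variable {v : Fin p → ℕ → ℚ}

lemma best_iff {lo hi : Fin (k + 1) → ℚ} {M : ℚ} (l : ∀ t, IsLeast (v i '' R (LV v) (c t)) (lo t))
    (h : ∀ t, IsGreatest (v i '' R (LV v) (c t)) (hi t)) (a : ∀ t, lo t ≤ M) (b : ∃ t, M ≤ lo t)
    (t : Fin (k + 1)) : Best (LV v) (.node P i k c) (c t) ↔ M ≤ hi t := by
  have e (t : Fin (k + 1)) (d : M ≤ hi t) : Best (LV v) (.node P i k c) (c t) := fun n => by
    induction n with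
    | zero => exact mv_node.2 ⟨t, rfl⟩
    | succ n ih =>
      refine ⟨ih, fun ⟨j, z, e, f, _, g⟩ => ?_⟩
      obtain rfl := tn_node.1 e
      obtain ⟨s, rfl⟩ := mv_node.1 (act_anti n.zero_le f)
      obtain ⟨x, ⟨u, u1, u2⟩, hx⟩ := (h t).1
      obtain ⟨y, ⟨w, w1, w2⟩, hy⟩ := (l s).1
      exact (g u w x y (rm u1 fun _ _ q => q n) u2 (rm w1 fun _ _ q => q n) w2).2
        (by rw [LV, hx, hy]; exact (a s).trans d)
  refine ⟨fun d => le_of_not_gt fun f => ?_, e t⟩
  obtain ⟨s, b⟩ := b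
  obtain ⟨n, g⟩ := (stab (le := LV v) (.node P i k c)).exists
  have g (t : Fin (k + 1)) (u : GT p) (a : ReflTransGen (Act (LV v) n) (c t) u) :
      ReflTransGen (Best (LV v)) (c t) u := by
    induction a with
    | refl => exact .refl
    | tail a b ih =>
      exact ih.tail (g _ (.head (mv_node.2 ⟨t, rfl⟩) (rm ih fun _ _ => Best.mv)) _ b)
  have q := b.trans ((h s).2 (l s).1)
  refine (d (n + 1)).2 ⟨i, c s, tn_node.2 rfl, e s q n, fun r => ?_, fun u w x y u1 u2 w1 w2 => ?_⟩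
  · have := h s
    rw [r] at this
    exact f.not_ge (this.unique (h t) ▸ q)
  · have := ((h t).2 ⟨x, ⟨u, g t u u1, u2⟩, rfl⟩).trans_lt
      (f.trans_le (b.trans ((l s).2 ⟨y, ⟨w, g s w w1, w2⟩, rfl⟩)))
    exact ⟨this.le, this.not_ge⟩

lemma ext_of_ne {x : GT p} (h : (R (LV v) x).Nonempty) (j : Fin p) :
    (∃ a, IsLeast (v j '' R (LV v) x) a) ∧ ∃ a, IsGreatest (v j '' R (LV v) x) a :=
  ⟨let ⟨a, b, d⟩ := Set.exists_min_image _ id ((R_fin x).image _) (h.image _); ⟨a, b, d⟩,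
    let ⟨a, b, d⟩ := Set.exists_max_image _ id ((R_fin x).image _) (h.image _); ⟨a, b, d⟩⟩

lemma R_ne (x : GT p) : (R (LV v) x).Nonempty := by
  induction x with
  | leaf P o => simp [R_leaf]
  | node P i k c ih =>
    choose lo l using fun t => (ext_of_ne (ih t) i).1
    choose hi h using fun t => (ext_of_ne (ih t) i).2
    obtain ⟨s, a⟩ := Finite.exists_max lo
    obtain ⟨x, b⟩ := ih s
    exact ⟨x, R_node.2 ⟨s, (best_iff l h a ⟨s, le_rfl⟩ s).2 ((h s).2 (l s).1), b⟩⟩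

/-- Evaluation with thresholds for the preference modalities. -/
def St (v : Fin p → ℕ → ℚ) (θ : ℕ → ℚ) : Fm p → GT p → Prop
  | .atom a, x => x.lab a
  | .fin, x => ∃ o, En x o
  | .turn i, x => Tn x i
  | .neg φ, x => ¬ St v θ φ x
  | .and φ ψ, x => St v θ φ x ∧ St v θ ψ x
  | .dia (.pref j) φ, x => ∃ a, En x a ∧ v j a ≤ θ (Fm.dia (.pref j) φ).code
  | .dia r φ, x => ∃ y, rel (LV v) x r x y ∧ St v θ φ y

lemma code_dia (r : Rl p) (φ : Fm p) : φ.code < (Fm.dia r φ).code := by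
  cases r <;> simp only [Fm.code] <;> try omega
  all_goals
    rename_i i
    have := Nat.le_mul_of_pos_left φ.code i.pos
    omega

lemma thr {θ : ℕ → ℚ} {T : GT p} {n : ℕ} (h : ∀ j φ, (Fm.dia (.pref j) φ).code ≤ n →
      (∀ x, ReflTransGen Mv T x → (Sat (LV v) T φ x ↔ St v θ φ x)) →
      ∀ x, ReflTransGen Mv T x → (Sat (LV v) T (.dia (.pref j) φ) x ↔ St v θ (.dia (.pref j) φ) x))
    (φ : Fm p) (l : φ.code ≤ n) (x : GT p) (a : ReflTransGen Mv T x) :
    Sat (LV v) T φ x ↔ St v θ φ x := by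
  induction φ generalizing x with
  | neg φ ih => exact not_congr (ih (by simp only [Fm.code] at l; omega) x a)
  | and φ ψ ih ih' =>
    have := Nat.left_le_pair φ.code ψ.code
    have := Nat.right_le_pair φ.code ψ.code
    simp only [Fm.code] at l
    exact and_congr (ih (by omega) x a) (ih' (by omega) x a)
  | dia r φ ih =>
    have ih := ih ((code_dia r φ).le.trans l)
    cases r
    case pref j => exact h j φ l ih x a
    all_goals refine exists_congr fun y => and_congr_right fun b => ih y (a.trans ?_)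
    exacts [.single b, b.to_reflTransGen, .single b.mv, rm b fun _ _ => Best.mv, .single b.2]
  | _ => rfl

lemma St_congr {θ θ' : ℕ → ℚ} {n : ℕ} (h : ∀ c ≤ n, θ c = θ' c) (φ : Fm p) (l : φ.code ≤ n)
    (x : GT p) : St v θ φ x ↔ St v θ' φ x := by
  induction φ generalizing x with
  | neg φ ih => exact not_congr (ih (by simp only [Fm.code] at l; omega) x)
  | and φ ψ ih ih' =>
    have := Nat.left_le_pair φ.code ψ.code
    have := Nat.right_le_pair φ.code ψ.code
    simp only [Fm.code] at l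
    exact and_congr (ih (by omega) x) (ih' (by omega) x)
  | dia r φ ih =>
    have ih := ih ((code_dia r φ).le.trans l)
    cases r
    case pref j => simp only [St, h _ l]
    all_goals exact exists_congr fun y => and_congr_right fun b => ih y
  | _ => rfl

lemma code_surj (hp : 0 < p) (n : ℕ) : ∃ φ : Fm p, φ.code = n := by
  induction n using Nat.strong_induction_on with
  | _ n ih =>
    obtain ⟨q, r, l, rfl⟩ : ∃ q r, r < 9 ∧ n = 9 * q + r :=
      ⟨n / 9, n % 9, Nat.mod_lt _ (by omega), (Nat.div_add_mod n 9).symm⟩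
    rcases r.eq_zero_or_pos with rfl | h
    · rcases q with _ | q
      · exact ⟨.fin, rfl⟩
      rcases lt_or_ge q p with h | h
      · exact ⟨.turn ⟨q, h⟩, rfl⟩
      · exact ⟨.atom (q - p), by simp only [Fm.code]; omega⟩
    obtain ⟨φ, a⟩ := ih q (by omega)
    obtain ⟨ψ, b⟩ := ih (q / p) (by have := Nat.div_le_self q p; omega)
    obtain ⟨φ₁, d⟩ := ih q.unpair.1 (by have := q.unpair_left_le; omega)
    obtain ⟨φ₂, e⟩ := ih q.unpair.2 (by have := q.unpair_right_le; omega)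
    have m := Nat.mod_lt q hp
    interval_cases r
    exacts [⟨.neg φ, by simp [Fm.code, a]⟩, ⟨.and φ₁ φ₂, by simp [Fm.code, d, e]⟩,
      ⟨.dia .mv φ, by simp [Fm.code, a]⟩, ⟨.dia .mvp φ, by simp [Fm.code, a]⟩,
      ⟨.dia .best φ, by simp [Fm.code, a]⟩, ⟨.dia .bests φ, by simp [Fm.code, a]⟩,
      ⟨.dia (.mvi ⟨_, m⟩) ψ, by simp [Fm.code, b, Nat.div_add_mod]⟩,
      ⟨.dia (.pref ⟨_, m⟩) ψ, by simp [Fm.code, b, Nat.div_add_mod]⟩]

lemma code_inj (φ ψ : Fm p) (h : φ.code = ψ.code) : φ = ψ := by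
  have k {a b : ℕ} {i j : Fin p} (h : p * a + i = p * b + j) : a = b ∧ i = j := by
    have a1 := congrArg (· / p) h
    have a2 := congrArg (· % p) h
    simp only [Nat.mul_add_div i.pos, Nat.div_eq_of_lt i.2, Nat.div_eq_of_lt j.2, Nat.mul_add_mod,
      Nat.mod_eq_of_lt i.2, Nat.mod_eq_of_lt j.2] at a1 a2
    exact ⟨a1, Fin.ext a2⟩
  induction φ generalizing ψ with
  | atom a =>
    rcases ψ with _ | _ | i | _ | _ | ⟨_ | _ | _ | _ | _ | _, _⟩ <;> simp only [Fm.code] at h <;>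
      first | omega | (congr 1; omega)
  | fin =>
    rcases ψ with _ | _ | i | _ | _ | ⟨_ | _ | _ | _ | _ | _, _⟩ <;> simp only [Fm.code] at h <;>
      first | omega | rfl
  | turn a =>
    rcases ψ with _ | _ | i | _ | _ | ⟨_ | _ | _ | _ | _ | _, _⟩ <;> simp only [Fm.code] at h <;>
      first | omega | (congr 1; omega)
  | neg φ ih =>
    rcases ψ with _ | _ | i | _ | _ | ⟨_ | _ | _ | _ | _ | _, _⟩ <;> simp only [Fm.code] at h <;>
      first | omega | exact congrArg _ (ih _ (by omega))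
  | and φ φ' ih ih' =>
    rcases ψ with _ | _ | i | _ | ⟨a, b⟩ | ⟨_ | _ | _ | _ | _ | _, _⟩ <;> simp only [Fm.code] at h <;>
      try omega
    obtain ⟨d, e⟩ := Nat.pair_eq_pair.1 (show Nat.pair φ.code φ'.code = Nat.pair a.code b.code by omega)
    rw [ih _ d, ih' _ e]
  | dia r φ ih =>
    rcases ψ with _ | _ | i | _ | _ | ⟨_ | _ | _ | _ | _ | _, _⟩ <;> cases r <;>
      simp only [Fm.code] at h <;> first | omega | exact congrArg _ (ih _ (by omega)) | skip
    all_goals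
      obtain ⟨d, rfl⟩ := k (Nat.eq_of_mul_eq_mul_left (by omega) (Nat.add_right_cancel h))
      rw [ih _ d]

end Pool.Agent.H.MP_b6c00a_lc
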