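import Pool.Agent.H.MP_b6c00a_lc.B
import Pool.Agent.H.MP_b6c00a_lc.C

set_option autoImplicit false

namespace Pool.Agent.H.MP_b6c00a_lc

open Relation

def bt (r : Rr) (κ c : ℕ) : Prop := ¬ r (10 * c + κ) 0

def Ee (r : Rr) (c : ℕ) : Prop := bt r 1 c ∨ bt r 3 c

def Bb (r : Rr) (c : ℕ) : Prop := bt r 1 c ∨ bt r 5 c

def Sh (p n i : ℕ) (r : Rr) : Prop := ∀ q ≤ n,
  (9 * q ≤ n → q ≤ p → (bt r 1 (9 * q) ↔ q = 0 ∧ i = p ∨ q = i + 1)) ∧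
  (9 * q + 1 ≤ n → (bt r 1 (9 * q + 1) ↔ ¬ bt r 1 q)) ∧
  (9 * q + 2 ≤ n → (bt r 1 (9 * q + 2) ↔ bt r 1 q.unpair.1 ∧ bt r 1 q.unpair.2)) ∧
  (9 * q + 3 ≤ n → (bt r 1 (9 * q + 3) ↔ bt r 2 q)) ∧
  (9 * q + 4 ≤ n → (bt r 1 (9 * q + 4) ↔ bt r 3 q)) ∧
  (9 * q + 5 ≤ n → (bt r 1 (9 * q + 5) ↔ bt r 4 q)) ∧
  (9 * q + 6 ≤ n → (bt r 1 (9 * q + 6) ↔ Bb r q)) ∧
  (9 * q + 7 ≤ n → (bt r 1 (9 * q + 7) ↔ q % p = i ∧ bt r 2 (q / p))) ∧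
  (9 * q + 8 ≤ n → (bt r 1 (9 * q + 8) ↔ i = p ∧ r (10 * (q % p) + 8) (10 * (9 * q + 8) + 7)))

def Lf (p n : ℕ) (r : Rr) : Prop := Sh p n p r ∧ (∀ q ≤ n, ∀ κ < 4, ¬ bt r (κ + 2) q) ∧
  (∀ j < p, r (10 * j + 8) (10 * j + 9) ∧ r (10 * j + 9) (10 * j + 8)) ∧ ∀ q ≤ n, 9 * q + 8 ≤ n →
    (bt r 1 (q / p) → r (10 * (q % p) + 8) (10 * (9 * q + 8) + 7)) ∧
    (bt r 6 (9 * q + 8) → bt r 1 (q / p) ∧ r (10 * (9 * q + 8) + 7) (10 * (q % p) + 8))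

def Xx (p κ c : ℕ) (r : Rr) : Prop := (κ < 5 → bt r (κ + 2) c) ∧ (5 ≤ κ → c < p)

def bs (i : ℕ) (r : Rr) : Prop := r (2 * 10) (2 * (10 * i + 9) + 1)

def Qk (i κ c : ℕ) (r : Rr) : Prop := (κ = 0 → bt (od r) 1 c) ∧ (κ = 1 → Ee (od r) c) ∧
  (κ = 2 → bs i r ∧ bt (od r) 1 c) ∧ (κ = 3 → bs i r ∧ Bb (od r) c) ∧ (κ = 4 → bt (od r) 6 c) ∧
  (κ = 5 → bs i r ∧ r (2 * (10 * c + 8) + 1) (2 * (10 * c + 8))) ∧
  (κ = 6 → bs i r ∧ r (2 * (10 * c + 9)) (2 * (10 * c + 9) + 1)) ∧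
  (κ = 7 → r (2 * 10) (2 * (10 * i + 8) + 1))

def Ok (p n i : ℕ) (r : Rr) : Prop :=
  (∀ c ≤ n, r (2 * (10 * c + 7)) (2 * (10 * c + 7) + 1) ∧ r (2 * (10 * c + 7) + 1) (2 * (10 * c + 7))) ∧
  r (2 * (10 * i + 8) + 1) (2 * 10) ∧
  (bs i r → ∀ j < p, r (2 * (10 * j + 8)) (2 * (10 * j + 8) + 1) ∧
    r (2 * (10 * j + 9) + 1) (2 * (10 * j + 9))) ∧
  ∀ κ < 5, ∀ c ≤ n, Qk i κ c r → bt (ev r) (κ + 2) c

def Fn (n m : ℕ) (r : Rr) : Prop :=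
  Ee r m ∧ ∀ q ≤ n, 9 * q + 8 ≤ n → bt r 6 (9 * q + 8) ∨ ¬ Ee r (9 * q + 8)

inductive Rz (p n : ℕ) : Rr → Prop
  | leaf (f : ℕ → ℚ) : Lf p n (ot (10 * (n + 1)) f) → Rz p n (ot (10 * (n + 1)) f)
  | node (r : Rr) (i : ℕ) (F : ℕ → ℕ → ℕ → ℚ) : i < p → Sh p n i r →
      (∀ κ < 8, ∀ c ≤ n, Xx p κ c r → Rz p n (od (ot (2 * (10 * (n + 1))) (F κ c)))) →
      (∀ κ < 8, ∀ c ≤ n, Xx p κ c r → ev (ot (2 * (10 * (n + 1))) (F κ c)) = r ∧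
        Ok p n i (ot (2 * (10 * (n + 1))) (F κ c)) ∧ Qk i κ c (ot (2 * (10 * (n + 1))) (F κ c))) →
      Rz p n r

variable {p n : ℕ} {v : Fin p → ℕ → ℚ} {θ : ℕ → ℚ}

/-- The meaning of the bits `2, …, 5`. -/
def Bt (v : Fin p → ℕ → ℚ) (θ : ℕ → ℚ) (x : GT p) (φ : Fm p) : ℕ → Prop
  | 0 => ∃ y, Mv x y ∧ St v θ φ y
  | 1 => ∃ y, TransGen Mv x y ∧ St v θ φ y
  | 2 => ∃ y, Best (LV v) x y ∧ St v θ φ y
  | _ => ∃ y, Best (LV v) x y ∧ ∃ z, ReflTransGen (Best (LV v)) y z ∧ St v θ φ z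

lemma dm (a : ℕ) (j : Fin p) : (p * a + j) / p = a ∧ (p * a + j) % p = j := by
  simp [Nat.mul_add_div j.pos, Nat.div_eq_of_lt j.2, Nat.mod_eq_of_lt j.2]

lemma st_bests {x : GT p} {φ : Fm p} : (∃ y, ReflTransGen (Best (LV v)) x y ∧ St v θ φ y) ↔
    St v θ φ x ∨ Bt v θ x φ 3 :=
  ⟨fun ⟨y, a, b⟩ => a.cases_head.imp (fun e : x = y => e ▸ b) fun ⟨z, c, d⟩ => ⟨z, c, y, d, b⟩,
    fun h => h.elim (fun a => ⟨x, .refl, a⟩) fun ⟨_, a, z, b, c⟩ => ⟨z, .head a b, c⟩⟩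

lemma st_mvs {x : GT p} {φ : Fm p} : (∃ y, ReflTransGen Mv x y ∧ St v θ φ y) ↔
    St v θ φ x ∨ Bt v θ x φ 1 :=
  ⟨fun ⟨y, a, b⟩ => (reflTransGen_iff_eq_or_transGen.1 a).imp (fun e : y = x => e ▸ b) fun c => ⟨y, c, b⟩,
    fun h => h.elim (fun a => ⟨x, .refl, a⟩) fun ⟨z, a, c⟩ => ⟨z, a.to_reflTransGen, c⟩⟩

lemma sh_iff (hp : 0 < p) {x : GT p} {i : ℕ} {r : Rr} (a0 : ∀ a, (Fm.atom a : Fm p).code ≤ n →
      (bt r 1 (Fm.atom a : Fm p).code ↔ x.lab a))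
    (a1 : (∃ o, En x o) ↔ i = p) (a2 : ∀ j : Fin p, Tn x j ↔ i = j)
    (a3 : ∀ φ : Fm p, φ.code ≤ n → ∀ κ < 4, bt r (κ + 2) φ.code ↔ Bt v θ x φ κ)
    (a4 : ∀ j φ, (Fm.dia (.pref j) φ).code ≤ n → (St v θ (.dia (.pref j) φ) x ↔
      i = p ∧ r (10 * j + 8) (10 * (Fm.dia (.pref j) φ).code + 7))) :
    Sh p n i r ↔ ∀ φ : Fm p, φ.code ≤ n → (bt r 1 φ.code ↔ St v θ φ x) := by
  refine ⟨fun h φ l => ?_, fun h q l => ?_⟩
  · induction φ with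
    | atom a => exact a0 a l
    | fin => simpa [St, a1, Fm.code] using (h 0 n.zero_le).1 l p.zero_le
    | turn j =>
      simp only [Fm.code] at l
      simpa [St, a2, Fm.code, eq_comm] using (h (j + 1) (by omega)).1 l j.2
    | neg φ ih =>
      simp only [Fm.code] at l
      rw [St, ← ih (by omega)]
      exact (h _ (by omega)).2.1 l
    | and φ ψ ih ih' =>
      have := Nat.left_le_pair φ.code ψ.code
      have := Nat.right_le_pair φ.code ψ.code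
      simp only [Fm.code] at l
      rw [St, ← ih (by omega), ← ih' (by omega)]
      simpa [Fm.code] using (h _ (by omega)).2.2.1 l
    | dia s φ ih =>
      have m := (code_dia s φ).le.trans l
      cases s
      · exact ((h _ m).2.2.2.1 l).trans (a3 _ m 0 (by omega))
      · exact ((h _ m).2.2.2.2.1 l).trans (a3 _ m 1 (by omega))
      · exact ((h _ m).2.2.2.2.2.1 l).trans (a3 _ m 2 (by omega))
      · exact ((h _ m).2.2.2.2.2.2.1 l).trans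
          ((or_congr (ih m) (a3 _ m 3 (by omega))).trans st_bests.symm)
      · rename_i j
        have := (h _ (by simp only [Fm.code] at l; omega)).2.2.2.2.2.2.2.1 l
        rw [(dm _ j).1, (dm _ j).2, a3 _ m 0 (by omega)] at this
        simpa [St, rel, a2, and_assoc, Bt, eq_comm, Fm.code] using this
      · rename_i j
        have := (h _ (by simp only [Fm.code] at l; omega)).2.2.2.2.2.2.2.2 l
        rw [(dm _ j).2] at this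
        rw [a4 _ _ l]
        exact this
  · obtain ⟨φ, rfl⟩ := code_surj hp q
    obtain ⟨ψ, b⟩ := code_surj hp (φ.code / p)
    obtain ⟨φ₁, d⟩ := code_surj hp φ.code.unpair.1
    obtain ⟨φ₂, e⟩ := code_surj hp φ.code.unpair.2
    have m := Nat.mod_lt φ.code hp
    have := Nat.div_le_self φ.code p
    have := φ.code.unpair_left_le
    have := φ.code.unpair_right_le
    have k : p * ψ.code + (⟨_, m⟩ : Fin p) = φ.code := by simp [b, Nat.div_add_mod]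
    refine ⟨fun u w => ?_, fun u => (h (.neg φ) u).trans (not_congr (h φ l).symm), fun u => ?_,
      fun u => (h (.dia .mv φ) u).trans (a3 _ l 0 (by omega)).symm,
      fun u => (h (.dia .mvp φ) u).trans (a3 _ l 1 (by omega)).symm,
      fun u => (h (.dia .best φ) u).trans (a3 _ l 2 (by omega)).symm,
      fun u => (h (.dia .bests φ) u).trans
        ((or_congr (h φ l) (a3 _ l 3 (by omega))).trans st_bests.symm).symm, fun u => ?_, fun u => ?_⟩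
    · generalize φ.code = q at *
      rcases q with _ | q
      · simpa [St, a1, Fm.code] using h .fin u
      · simpa [St, a2, Fm.code, eq_comm] using h (.turn ⟨q, w⟩) u
    · have := h (.and φ₁ φ₂)
      simp only [Fm.code, d, e, Nat.pair_unpair] at this
      rw [this u, St, ← h φ₁ (by omega), ← h φ₂ (by omega), d, e]
    · have := h (.dia (.mvi ⟨_, m⟩) ψ)
      simp only [Fm.code, k] at this
      rw [this u, ← b, a3 ψ (by omega) 0 (by omega)]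
      simp [St, rel, a2, and_assoc, Bt, eq_comm]
    · have := h (.dia (.pref ⟨_, m⟩) ψ)
      have z := a4 ⟨_, m⟩ ψ
      simp only [Fm.code, k] at this z
      rw [this u, z u]

section
variable {P : ℕ → Prop} {i : Fin p} {k : ℕ} {c : Fin (k + 1) → GT p} {φ : Fm p}

lemma bt_leaf {o κ : ℕ} : ¬ Bt v θ (.leaf P o) φ κ := by
  rcases κ with _ | _ | _ | _ <;> rintro ⟨y, a, -⟩
  exacts [mv_leaf a, let ⟨_, b, _⟩ := TransGen.head'_iff.1 a; mv_leaf b, mv_leaf a.mv, mv_leaf a.mv]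

lemma bt0 : Bt v θ (.node P i k c) φ 0 ↔ ∃ t, St v θ φ (c t) := by simp [Bt]

lemma bt1 : Bt v θ (.node P i k c) φ 1 ↔ ∃ t, St v θ φ (c t) ∨ Bt v θ (c t) φ 1 := by
  simp only [← st_mvs]
  simp only [Bt, TransGen.head'_iff, mv_node]
  exact ⟨fun ⟨y, ⟨_, ⟨t, a⟩, b⟩, d⟩ => ⟨t, y, a ▸ b, d⟩, fun ⟨t, y, a, b⟩ => ⟨y, ⟨_, ⟨t, rfl⟩, a⟩, b⟩⟩

lemma ex_best {X : GT p → Prop} : (∃ y, Best (LV v) (.node P i k c) y ∧ X y) ↔
    ∃ t, Best (LV v) (.node P i k c) (c t) ∧ X (c t) :=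
  ⟨fun ⟨_, a, b⟩ => by obtain ⟨t, rfl⟩ := mv_node.1 a.mv; exact ⟨t, a, b⟩, fun ⟨_, a⟩ => ⟨_, a⟩⟩

lemma bt3 : Bt v θ (.node P i k c) φ 3 ↔
    ∃ t, Best (LV v) (.node P i k c) (c t) ∧ (St v θ φ (c t) ∨ Bt v θ (c t) φ 3) := by
  simp only [← st_bests]
  exact ex_best

end

def NV (v : Fin p → ℕ → ℚ) (θ : ℕ → ℚ) (n : ℕ) (x : GT p) : Prop :=
  ∀ j φ, (Fm.dia (.pref j) φ).code ≤ n → ∀ u a, ReflTransGen Mv x u → En u a → St v θ φ u →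
    v j a ≤ θ (Fm.dia (.pref j) φ).code

def Wt (v : Fin p → ℕ → ℚ) (θ : ℕ → ℚ) (x : GT p) (c : ℕ) : Prop :=
  ∃ j φ u a, c = (Fm.dia (.pref j) φ).code ∧ ReflTransGen Mv x u ∧ En u a ∧ St v θ φ u ∧ θ c ≤ v j a

lemma pair_iff {s y : ℕ → ℚ} {i : ℕ} (hi : i < p) (hn : p ≤ n) :
    (bs i (ot (2 * (10 * (n + 1))) (il s y)) ↔ s 10 ≤ y (10 * i + 9)) ∧
    (∀ a < 10 * (n + 1), ∀ b < 10 * (n + 1),
      (ot (2 * (10 * (n + 1))) (il s y) (2 * a) (2 * b + 1) ↔ s a ≤ y b) ∧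
      (ot (2 * (10 * (n + 1))) (il s y) (2 * b + 1) (2 * a) ↔ y b ≤ s a)) ∧
    ev (ot (2 * (10 * (n + 1))) (il s y)) = ot (10 * (n + 1)) s ∧
    od (ot (2 * (10 * (n + 1))) (il s y)) = ot (10 * (n + 1)) y := by
  refine ⟨?_, fun a _ b _ => ⟨?_, ?_⟩, by simp [ev_ot], by simp [od_ot]⟩ <;>
    simp only [bs, ot, il_ev, il_od] <;> exact ⟨fun h => h.2.2, fun h => ⟨by omega, by omega, h⟩⟩

end Pool.Agent.H.MP_b6c00a_lc
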