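import Pool.Agent.H.MP_b6c00a_lc.D

set_option autoImplicit false

namespace Pool.Agent.H.MP_b6c00a_lc

open Relation

variable {p n : ℕ} {v : Fin p → ℕ → ℚ}

structure Corr (v : Fin p → ℕ → ℚ) (n : ℕ) (θ : ℕ → ℚ) (x : GT p) (s : ℕ → ℚ) : Prop where
  th : ∀ c ≤ n, s (10 * c + 7) = θ c
  t : ∀ φ : Fm p, φ.code ≤ n → (bt (ot (10 * (n + 1)) s) 1 φ.code ↔ St v θ φ x)
  b : ∀ φ : Fm p, φ.code ≤ n → ∀ κ < 4, bt (ot (10 * (n + 1)) s) (κ + 2) φ.code ↔ Bt v θ x φ κ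
  w : ∀ c ≤ n, c % 9 = 8 → bt (ot (10 * (n + 1)) s) 6 c → Wt v θ x c
  nv : NV v θ n x
  lo : ∀ j : Fin p, IsLeast (v j '' R (LV v) x) (s (10 * j + 8))
  hi : ∀ j : Fin p, IsGreatest (v j '' R (LV v) x) (s (10 * j + 9))

lemma extr (hp : 0 < p) (hn : p ≤ n) (hv : ∀ g : Fin p → ℚ, ∃ o, ∀ j, v j o = g j) {θ : ℕ → ℚ}
    {r : Rr} (h : Rz p n r) (s : ℕ → ℚ) (e : ot (10 * (n + 1)) s = r)
    (th : ∀ c ≤ n, s (10 * c + 7) = θ c) : ∃ x, Corr v n θ x s := by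
  induction h generalizing s with
  | leaf f h =>
    rw [← e] at h
    obtain ⟨h1, h2, h3, h4⟩ := h
    obtain ⟨o, ho⟩ := hv fun j => s (10 * j + 8)
    have b (φ : Fm p) (l : φ.code ≤ n) (κ : ℕ) (a : κ < 4) : bt (ot (10 * (n + 1)) s) (κ + 2) φ.code ↔
        Bt v θ (.leaf (fun a => bt (ot (10 * (n + 1)) s) 1 (Fm.atom a : Fm p).code) o) φ κ :=
      iff_of_false (h2 _ l κ a) bt_leaf
    have t := (sh_iff hp (fun _ _ => .rfl) (by simp) (fun j => by simp [j.2.ne']) b fun j φ l => by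
      have := j.2
      simp only [St, en_leaf, exists_eq_left', ho, ot, th _ l, true_and]
      exact ⟨fun h => ⟨by omega, by omega, h⟩, fun h => h.2.2⟩).1 h1
    refine ⟨_, th, t, b, fun c l a d => ?_, fun j φ l u a i k m => ?_, fun j => ?_, fun j => ?_⟩
    · obtain ⟨q, rfl⟩ : ∃ q, c = 9 * q + 8 := ⟨c / 9, by omega⟩
      obtain ⟨ψ, b⟩ := code_surj hp (q / p)
      obtain ⟨i, j⟩ := (h4 q (by omega) l).2 d
      have := Nat.div_le_self q p
      exact ⟨⟨_, Nat.mod_lt q hp⟩, ψ, _, o, by simp [Fm.code, b, Nat.div_add_mod], .refl, by simp,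
        (t ψ (by omega)).1 (b ▸ i), by rw [ho, ← th _ l]; exact j.2.2⟩
    · obtain rfl := (rt_leaf fun _ _ => id).1 i
      obtain rfl := en_leaf.1 k
      have := (h4 _ (by simp only [Fm.code] at l; omega) l).1
      rw [(dm _ j).1, (dm _ j).2] at this
      rw [ho, ← th _ l]
      exact (this ((t φ ((code_dia _ φ).le.trans l)).2 m)).2.2
    · simp [R_leaf, ho]
    · rw [le_antisymm (h3 j j.2).2.2.2 (h3 j j.2).1.2.2]
      simp [R_leaf, ho]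
  | node r i F hi h1 _ h3 ih =>
    subst e
    have (κ : ℕ) (a : κ < 8) (c : ℕ) (l : c ≤ n) (X : Xx p κ c (ot (10 * (n + 1)) s)) :
        ∃ y x, Corr v n θ x y ∧ Ok p n i (ot (2 * (10 * (n + 1))) (il s y)) ∧
          Qk i κ c (ot (2 * (10 * (n + 1))) (il s y)) := by
      obtain ⟨d, f, g⟩ := h3 κ a c l X
      obtain ⟨y, k⟩ := ext2 d
      rw [← k] at f g
      obtain ⟨x, m⟩ := ih κ a c l X y (by rw [← k, (pair_iff hi hn).2.2.2]) fun c l => by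
        have := (pair_iff (s := s) (y := y) hi hn).2.1 (10 * c + 7) (by omega) (10 * c + 7) (by omega)
        rw [← th c l]
        exact le_antisymm (this.2.1 (f.1 c l).2) (this.1.1 (f.1 c l).1)
      exact ⟨y, x, m, f, g⟩
    have (t : Fin (8 * n + 7 + 1)) : ∃ y x, Corr v n θ x y ∧
        Ok p n i (ot (2 * (10 * (n + 1))) (il s y)) ∧ (Xx p (t % 8) (t / 8) (ot (10 * (n + 1)) s) →
          Qk i (t % 8) (t / 8) (ot (2 * (10 * (n + 1))) (il s y))) := by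
      by_cases X : Xx p (t % 8) (t / 8) (ot (10 * (n + 1)) s)
      · obtain ⟨y, x, a, b, c⟩ := this _ (Nat.mod_lt _ (by omega)) _ (by omega) X
        exact ⟨y, x, a, b, fun _ => c⟩
      · obtain ⟨y, x, a, b, -⟩ := this 7 (by omega) 0 n.zero_le ⟨by omega, fun _ => hp⟩
        exact ⟨y, x, a, b, fun a => (X a).elim⟩
    choose y x C O Q using this
    have Q (κ : ℕ) (a : κ < 8) (c : ℕ) (l : c ≤ n) (X : Xx p κ c (ot (10 * (n + 1)) s)) :
        ∃ t, Qk i κ c (ot (2 * (10 * (n + 1))) (il s (y t))) := by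
      have := Q ⟨8 * c + κ, by omega⟩
      simp only [show (8 * c + κ) % 8 = κ by omega, show (8 * c + κ) / 8 = c by omega] at this
      exact ⟨_, this X⟩
    have pi (t : Fin (8 * n + 7 + 1)) := pair_iff (s := s) (y := y t) hi hn
    have K (κ : ℕ) (a : κ < 5) (c : ℕ) (l : c ≤ n) : bt (ot (10 * (n + 1)) s) (κ + 2) c ↔
        ∃ t, Qk i κ c (ot (2 * (10 * (n + 1))) (il s (y t))) :=
      ⟨fun b => Q κ (by omega) c l ⟨fun _ => b, by omega⟩,
        fun ⟨t, b⟩ => (pi t).2.2.1 ▸ (O t).2.2.2 κ a c l b⟩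
    let P (a : ℕ) := bt (ot (10 * (n + 1)) s) 1 (Fm.atom a : Fm p).code
    have bi (t : Fin (8 * n + 7 + 1)) : Best (LV v) (.node P ⟨i, hi⟩ _ x) (x t) ↔
        bs i (ot (2 * (10 * (n + 1))) (il s (y t))) := by
      rw [(pi t).1]
      refine best_iff (fun t => (C t).lo ⟨i, hi⟩) (fun t => (C t).hi ⟨i, hi⟩) (fun t =>
        ((pi t).2.1 _ (by omega) _ (by omega)).2.1 (O t).2.1) ?_ t
      obtain ⟨t, a⟩ := Q 7 (by omega) 0 n.zero_le ⟨by omega, fun _ => hp⟩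
      exact ⟨t, ((pi t).2.1 _ (by omega) _ (by omega)).1.1 (a.2.2.2.2.2.2.2 rfl)⟩
    have b (φ : Fm p) (l : φ.code ≤ n) (κ : ℕ) (a : κ < 4) :
        bt (ot (10 * (n + 1)) s) (κ + 2) φ.code ↔ Bt v θ (.node P ⟨i, hi⟩ _ x) φ κ := by
      rw [K κ (by omega) _ l]
      have e1 (t : Fin (8 * n + 7 + 1)) := (C t).t φ l
      have e2 (t : Fin (8 * n + 7 + 1)) := (C t).b φ l 1 (by omega)
      have e3 (t : Fin (8 * n + 7 + 1)) := (C t).b φ l 3 (by omega)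
      interval_cases κ
      · simp [bt0, Qk, (pi _).2.2.2, e1]
      · simp [bt1, Qk, (pi _).2.2.2, Ee, e1, e2]
      · simp [Bt, ex_best, Qk, (pi _).2.2.2, e1, bi]
      · simp [bt3, Qk, (pi _).2.2.2, Bb, e1, e3, bi]
    refine ⟨_, th, (sh_iff hp (fun _ _ => .rfl) (by simp [hi.ne]) (fun j => by simp [Fin.ext_iff]) b
      fun j φ l => by simp [St, hi.ne]).1 h1, b, fun c l a d => ?_, fun j φ l u a i k m => ?_,
      fun j => ⟨?_, ?_⟩, fun j => ⟨?_, ?_⟩⟩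
    · obtain ⟨t, e⟩ := (K 4 (by omega) c l).1 d
      obtain ⟨j, φ, u, o, f, g, h⟩ := (C t).w c l a ((pi t).2.2.2 ▸ e.2.2.2.2.1 rfl)
      exact ⟨j, φ, u, o, f, .head (mv_node.2 ⟨t, rfl⟩) g, h⟩
    · rcases (rt_node fun _ _ => id).1 i with rfl | ⟨t, -, i⟩
      · exact (en_node k).elim
      · exact (C t).nv j φ l u a i k m
    · have := j.2
      obtain ⟨t, a⟩ := Q 5 (by omega) j (by omega) ⟨by omega, fun _ => j.2⟩
      obtain ⟨a, d⟩ := a.2.2.2.2.2.1 rfl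
      obtain ⟨o, f, g⟩ := ((C t).lo j).1
      exact ⟨o, R_node.2 ⟨t, (bi t).2 a, f⟩, g.trans (le_antisymm
        (((pi t).2.1 _ (by omega) _ (by omega)).2.1 d)
        (((pi t).2.1 _ (by omega) _ (by omega)).1.1 ((O t).2.2.1 a j j.2).1))⟩
    · have := j.2
      rintro _ ⟨o, f, rfl⟩
      obtain ⟨t, a, f⟩ := R_node.1 f
      exact (((pi t).2.1 _ (by omega) _ (by omega)).1.1 ((O t).2.2.1 ((bi t).1 a) j j.2).1).trans
        (((C t).lo j).2 ⟨o, f, rfl⟩)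
    · have := j.2
      obtain ⟨t, a⟩ := Q 6 (by omega) j (by omega) ⟨by omega, fun _ => j.2⟩
      obtain ⟨a, d⟩ := a.2.2.2.2.2.2.1 rfl
      obtain ⟨o, f, g⟩ := ((C t).hi j).1
      exact ⟨o, R_node.2 ⟨t, (bi t).2 a, f⟩, g.trans (le_antisymm
        (((pi t).2.1 _ (by omega) _ (by omega)).2.1 ((O t).2.2.1 a j j.2).2)
        (((pi t).2.1 _ (by omega) _ (by omega)).1.1 d))⟩
    · have := j.2
      rintro _ ⟨o, f, rfl⟩
      obtain ⟨t, a, f⟩ := R_node.1 f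
      exact (((C t).hi j).2 ⟨o, f, rfl⟩).trans
        (((pi t).2.1 _ (by omega) _ (by omega)).2.1 ((O t).2.2.1 ((bi t).1 a) j j.2).2)

lemma refute (hp : 0 < p) (hn : p ≤ n) {φ : Fm p} (l : φ.neg.code ≤ n) {s : ℕ → ℚ}
    (h : Rz p n (ot (10 * (n + 1)) s)) (f : Fn n φ.neg.code (ot (10 * (n + 1)) s)) : ¬ Valid φ := by
  obtain ⟨d, hd⟩ := exists_surjective_nat (Fin p → ℚ)
  obtain ⟨x, C⟩ := extr (v := fun j o => d o j) hp hn (fun g => (hd g).imp fun _ => congrFun) h s rfl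
    fun _ _ => rfl
  have E (φ : Fm p) (l : φ.code ≤ n) := ((or_congr (C.t φ l) (C.b φ l 1 (by omega))).trans st_mvs.symm)
  obtain ⟨y, a, b⟩ := (E _ l).1 f.1
  refine fun V => (thr (fun j ψ l ih u c => ⟨?_, ?_⟩) φ.neg l y a).2 b
    (V (LV fun j o => d o j) (fun _ _ _ => le_total _ _) (fun _ _ _ _ => le_trans) x y a)
  · rintro ⟨w, ⟨o, o', e, g, i, k⟩, m⟩
    exact ⟨o, e, le_trans k (C.nv j ψ l w o' i g ((ih w i).1 m))⟩
  · rintro ⟨o, e, g⟩
    have := (f.2 _ (by simp only [Fm.code] at l; omega) l).resolve_right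
      (not_not.2 ((E _ l).2 ⟨u, c, o, e, g⟩))
    obtain ⟨j', ψ', w, o', i, k, m, q, r⟩ := C.w _ l (by simp only [Fm.code]; omega) this
    cases code_inj (.dia (.pref j) ψ) _ i
    exact ⟨w, ⟨o, o', e, m, k, g.trans r⟩, (ih w k).2 q⟩

end Pool.Agent.H.MP_b6c00a_lc
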