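import Pool.Agent.H.MP_b6c00a_lc.E

set_option autoImplicit false

namespace Pool.Agent.H.MP_b6c00a_lc

open Relation

variable {p n : ℕ} {v : Fin p → ℕ → ℚ} {θ : ℕ → ℚ}

lemma summ (hp : 0 < p) (v : Fin p → ℕ → ℚ) (θ : ℕ → ℚ) (n : ℕ) : ∃ s : GT p → ℕ → ℚ, ∀ x,
    (∀ c, s x (10 * c + 7) = θ c) ∧
    (∀ φ : Fm p, φ.code ≤ n → (bt (ot (10 * (n + 1)) (s x)) 1 φ.code ↔ St v θ φ x)) ∧
    (∀ φ : Fm p, φ.code ≤ n → ∀ κ < 4, bt (ot (10 * (n + 1)) (s x)) (κ + 2) φ.code ↔ Bt v θ x φ κ) ∧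
    (∀ c ≤ n, bt (ot (10 * (n + 1)) (s x)) 6 c ↔ Wt v θ x c) ∧
    (∀ j : Fin p, IsLeast (v j '' R (LV v) x) (s x (10 * j + 8))) ∧
    (∀ j : Fin p, IsGreatest (v j '' R (LV v) x) (s x (10 * j + 9))) ∧
    ∀ P i k c, x = .node P i k c → (∀ t, s (c t) (10 * i + 8) ≤ s x 10) ∧
      ∃ t, s x 10 ≤ s (c t) (10 * i + 8) := by
  classical
  choose d hd using code_surj hp
  have hd' (φ : Fm p) : d φ.code = φ := code_inj _ _ (hd _)
  choose lo hl using fun x j => (ext_of_ne (R_ne (v := v) x) j).1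
  choose hi hh using fun x j => (ext_of_ne (R_ne (v := v) x) j).2
  have (x : GT p) : ∃ M, ∀ P i k c, x = .node P i k c → (∀ t, lo (c t) i ≤ M) ∧ ∃ t, M ≤ lo (c t) i := by
    cases x with
    | leaf => exact ⟨0, fun _ _ _ _ h => nomatch h⟩
    | node P i k c =>
      obtain ⟨t, a⟩ := Finite.exists_max fun t => lo (c t) i
      exact ⟨_, fun _ _ _ _ h => by cases h; exact ⟨a, t, le_rfl⟩⟩
  choose M hM using this
  let G (x : GT p) (c : ℕ) : ℕ → ℚ
    | 0 => if c = 0 then 0 else M x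
    | 1 => if St v θ (d c) x then 1 else 0
    | 6 => if Wt v θ x c then 1 else 0
    | 7 => θ c
    | 8 => if h : c < p then lo x ⟨c, h⟩ else 0
    | 9 => if h : c < p then hi x ⟨c, h⟩ else 0
    | κ + 2 => if Bt v θ x (d c) κ then 1 else 0
  obtain ⟨s, e⟩ : ∃ s : GT p → ℕ → ℚ, ∀ x c, ∀ κ < 10, s x (10 * c + κ) = G x c κ :=
    ⟨fun x k => G x (k / 10) (k % 10), fun x c κ l => by
      simp only [show (10 * c + κ) / 10 = c by omega, show (10 * c + κ) % 10 = κ by omega]⟩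
  have b (x : GT p) (c κ : ℕ) (l : c ≤ n) (a : κ < 10) (X : Prop) (h : G x c κ = if X then 1 else 0) :
      bt (ot (10 * (n + 1)) (s x)) κ c ↔ X := by
    have := e x 0 0 (by omega)
    simp only [bt, ot, e x c κ a, h, show s x 0 = 0 from this, show 10 * c + κ < 10 * (n + 1) by omega]
    split_ifs with k <;> simp [k]
  have l (x : GT p) (j : Fin p) : s x (10 * j + 8) = lo x j := (e x j 8 (by omega)).trans (dif_pos j.2)
  refine ⟨s, fun x => ⟨fun c => e x c 7 (by omega), fun φ l => by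
      rw [b x _ 1 l (by omega) _ rfl, hd'],
    fun φ l κ a => ?_, fun c l => b x _ 6 l (by omega) _ rfl, fun j => l x j ▸ hl x j, fun j => ?_,
    fun P i k c h => ?_⟩⟩
  · rw [b x _ _ l (by omega) (Bt v θ x (d φ.code) κ) (by interval_cases κ <;> rfl), hd']
  · rw [show s x _ = hi x j from (e x j 9 (by omega)).trans (dif_pos j.2)]
    exact hh x j
  · simp only [l, show s x 10 = M x from e x 1 0 (by omega)]
    exact hM x P i k c h

lemma sound (hp : 0 < p) (hn : p ≤ n) {φ : Fm p} (l : φ.neg.code ≤ n) (h : ¬ Valid φ) :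
    ∃ s : ℕ → ℚ, Rz p n (ot (10 * (n + 1)) s) ∧ Fn n φ.neg.code (ot (10 * (n + 1)) s) := by
  classical
  simp only [Valid, not_forall] at h
  obtain ⟨le, a, b, T, x, c, h⟩ := h
  choose v hv using fun i => repr (le i) (a i) (b i)
  obtain rfl : le = LV v := by ext i a b; exact hv i a b
  have fin (x : GT p) : {a | ∃ u, ReflTransGen Mv x u ∧ En u a}.Finite := by
    induction x with
    | leaf P o => simp [rt_leaf fun _ _ => id]
    | node P i k c ih =>
      refine (Set.finite_iUnion ih).subset fun a ⟨u, b, d⟩ => ?_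
      rcases (rt_node fun _ _ => id).1 b with rfl | ⟨t, -, b⟩
      · exact (en_node d).elim
      · exact Set.mem_iUnion.2 ⟨t, u, b, d⟩
  have (c : ℕ) : ∃ q, ∀ j φ, c = (Fm.dia (.pref j) φ).code →
      (∀ u a, ReflTransGen Mv T u → En u a → Sat (LV v) T φ u → v j a ≤ q) ∧
      ((∃ u a, ReflTransGen Mv T u ∧ En u a ∧ Sat (LV v) T φ u ∧ q ≤ v j a) ∨
        ∀ u a, ReflTransGen Mv T u → En u a → q < v j a) := by
    by_cases k : ∃ j φ, c = (Fm.dia (.pref j) φ : Fm p).code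
    · obtain ⟨j, φ, rfl⟩ := k
      by_cases m : {a | ∃ u, ReflTransGen Mv T u ∧ En u a ∧ Sat (LV v) T φ u}.Nonempty
      · obtain ⟨a, ⟨u, d, e, f⟩, g⟩ := Set.exists_max_image _ (v j)
          ((fin T).subset (by exact fun a ⟨u, d, e, _⟩ => ⟨u, d, e⟩)) m
        refine ⟨v j a, fun j φ i => ?_⟩
        cases code_inj _ _ i
        exact ⟨fun u a d e f => g a ⟨u, d, e, f⟩, .inl ⟨u, a, d, e, f, le_rfl⟩⟩
      · obtain ⟨q, g⟩ := ((fin T).image (v j)).bddBelow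
        refine ⟨q - 1, fun j φ i => ?_⟩
        cases code_inj _ _ i
        exact ⟨fun u a d e f => (m ⟨a, u, d, e, f⟩).elim, .inr fun u a d e =>
          (sub_one_lt q).trans_le (g ⟨a, ⟨u, d, e⟩, rfl⟩)⟩
    · exact ⟨0, fun j φ i => (k ⟨j, φ, i⟩).elim⟩
  choose θ hθ using this
  have e := thr (v := v) (θ := θ) (T := T) (n := n) fun j ψ _ _ u c => by
    obtain ⟨i, k⟩ := hθ _ j ψ rfl
    refine ⟨fun ⟨w, ⟨o, o', e, g, m, q⟩, r⟩ => ⟨o, e, le_trans q (i w o' m g r)⟩, fun ⟨o, e, g⟩ => ?_⟩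
    obtain ⟨w, o', m, q, r, t⟩ := k.resolve_right fun k => (k u o c e).not_ge g
    exact ⟨w, ⟨o, o', e, q, m, g.trans t⟩, r⟩
  obtain ⟨s, hs⟩ := summ hp v θ n
  refine ⟨s T, ?_, ?_, fun q _ l => ?_⟩
  rotate_left
  · exact ((or_congr ((hs T).2.1 _ l) ((hs T).2.2.1 _ l 1 (by omega))).trans st_mvs.symm).2
      ⟨x, c, (e φ.neg l x c).1 h⟩
  · obtain ⟨ψ, b⟩ := code_surj hp (q / p)
    have m := Nat.mod_lt q hp
    have k : 9 * q + 8 = (Fm.dia (.pref ⟨_, m⟩) ψ).code := by simp [Fm.code, b, Nat.div_add_mod]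
    rw [k] at l ⊢
    refine (hθ _ _ ψ rfl).2.imp (fun ⟨u, a, d, f, g, i⟩ => ((hs T).2.2.2.1 _ l).2
      ⟨_, ψ, u, a, rfl, d, f, (e ψ ((code_dia _ _).le.trans l) u d).1 g, i⟩) fun d f => ?_
    obtain ⟨u, g, o, i, j⟩ :=
      ((or_congr ((hs T).2.1 _ l) ((hs T).2.2.1 _ l 1 (by omega))).trans st_mvs.symm).1 f
    exact (d u o g i).not_ge j
  have nv : NV v θ n T := fun j ψ l u a d f g =>
    (hθ _ j ψ rfl).1 u a d f ((e ψ ((code_dia _ _).le.trans l) u d).2 g)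
  clear e hθ c h
  induction T with
  | leaf P o =>
    obtain ⟨th, t, b, w, lo, hi, -⟩ := hs (.leaf P o)
    have lo (j : Fin p) : s (.leaf P o) (10 * j + 8) = v j o := by simpa [R_leaf, eq_comm] using (lo j).1
    have hi (j : Fin p) : s (.leaf P o) (10 * j + 9) = v j o := by simpa [R_leaf, eq_comm] using (hi j).1
    refine .leaf _ ⟨(sh_iff hp (fun a => t _) (by simp) (fun j => by simp [j.2.ne']) b fun j φ l => by
      have := j.2
      simp only [St, en_leaf, exists_eq_left', lo, ot, th, true_and]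
      exact ⟨fun h => ⟨by omega, by omega, h⟩, fun h => h.2.2⟩).2 t, fun q l κ a => ?_,
      fun j l => ?_, fun q _ l => ?_⟩
    · obtain ⟨ψ, rfl⟩ := code_surj hp q
      exact fun d => bt_leaf ((b ψ l κ a).1 d)
    · have := (lo ⟨j, l⟩).trans (hi ⟨j, l⟩).symm
      exact ⟨⟨by omega, by omega, this.le⟩, by omega, by omega, this.ge⟩
    · obtain ⟨ψ, b⟩ := code_surj hp (q / p)
      have m := Nat.mod_lt q hp
      have k : 9 * q + 8 = (Fm.dia (.pref ⟨_, m⟩) ψ).code := by simp [Fm.code, b, Nat.div_add_mod]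
      have l' := k ▸ l
      rw [← b, t ψ ((code_dia _ _).le.trans l'), w _ l]
      simp only [ot, th, lo ⟨_, m⟩]
      refine ⟨fun d => ⟨by omega, by omega, k ▸ nv _ ψ l' _ o .refl (by simp) d⟩, ?_⟩
      rintro ⟨j, ψ', u, a, d, f, g, i, j⟩
      cases code_inj _ _ (k.symm.trans d)
      obtain rfl := (rt_leaf fun _ _ => id).1 f
      obtain rfl := en_leaf.1 g
      exact ⟨i, by omega, by omega, j⟩
  | node P i k c ih =>
    have hi := i.2
    replace ih (t : Fin (k + 1)) := ih t fun j ψ l u a d => nv j ψ l u a (.head (mv_node.2 ⟨t, rfl⟩) d)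
    obtain ⟨th, t, b, w, lo, hi', M⟩ := hs (.node P i k c)
    obtain ⟨M, M'⟩ := M P i k c rfl
    set x := GT.node P i k c
    have pi (t : Fin (k + 1)) := pair_iff (s := s x) (y := s (c t)) hi hn
    have bi (t : Fin (k + 1)) : bs i (ot (2 * (10 * (n + 1))) (il (s x) (s (c t)))) ↔
        Best (LV v) x (c t) := by
      rw [(pi t).1]
      exact (best_iff (fun t => (hs _).2.2.2.2.1 i) (fun t => (hs _).2.2.2.2.2.1 i) M M' t).symm
    have K (κ : ℕ) (a : κ < 5) (q : ℕ) (l : q ≤ n) : bt (ot (10 * (n + 1)) (s x)) (κ + 2) q ↔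
        ∃ t, Qk i κ q (ot (2 * (10 * (n + 1))) (il (s x) (s (c t)))) := by
      obtain ⟨φ, rfl⟩ := code_surj hp q
      have e1 (t : Fin (k + 1)) := (hs (c t)).2.1 φ l
      have e2 (t : Fin (k + 1)) := (hs (c t)).2.2.1 φ l 1 (by omega)
      have e3 (t : Fin (k + 1)) := (hs (c t)).2.2.1 φ l 3 (by omega)
      have e4 (t : Fin (k + 1)) := (hs (c t)).2.2.2.1 _ l
      rcases (Nat.le_of_lt_succ a).lt_or_eq with a | rfl
      · rw [b φ l κ a]
        interval_cases κ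
        · simp [x, bt0, Qk, (pi _).2.2.2, e1]
        · simp [x, bt1, Qk, (pi _).2.2.2, Ee, e1, e2]
        · simp only [Bt, x, ex_best]; simp [Qk, (pi _).2.2.2, e1, bi, x]
        · simp only [x, bt3]; simp [Qk, (pi _).2.2.2, Bb, e1, e3, bi, x]
      · rw [w _ l]
        simp only [Qk, (pi _).2.2.2, e4]
        simp only [Nat.reduceEqDiff, false_imp_iff, true_and, and_true, true_imp_iff]
        refine ⟨fun ⟨j, ψ, u, a, d, f, g, h⟩ => ?_, fun ⟨t, j, ψ, u, a, d, f, g⟩ =>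
          ⟨j, ψ, u, a, d, .head (mv_node.2 ⟨t, rfl⟩) f, g⟩⟩
        rcases (rt_node fun _ _ => id).1 f with rfl | ⟨t, -, f⟩
        · exact (en_node g).elim
        · exact ⟨t, j, ψ, u, a, d, f, g, h⟩
    have sub (t : Fin (k + 1)) (a : Best (LV v) x (c t)) (j : Fin p) :
        v j '' R (LV v) (c t) ⊆ v j '' R (LV v) x :=
      Set.image_mono fun o d => R_node.2 ⟨t, a, d⟩
    have (κ q : ℕ) : ∃ t, κ < 8 → q ≤ n → Xx p κ q (ot (10 * (n + 1)) (s x)) →
        Qk i κ q (ot (2 * (10 * (n + 1))) (il (s x) (s (c t)))) := by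
      by_cases X : κ < 8 ∧ q ≤ n ∧ Xx p κ q (ot (10 * (n + 1)) (s x))
      · obtain ⟨a, l, X⟩ := X
        suffices ∃ t, Qk i κ q (ot (2 * (10 * (n + 1))) (il (s x) (s (c t)))) from
          this.imp fun _ h _ _ _ => h
        rcases lt_or_ge κ 5 with d | d
        · exact (K κ d q l).1 (X.1 d)
        have m := X.2 d
        interval_cases κ
        · obtain ⟨o, f, g⟩ := (lo ⟨q, m⟩).1
          obtain ⟨t, f, f'⟩ := R_node.1 f
          exact ⟨t, by simpa [Qk] using And.intro ((bi t).2 f) (((pi t).2.1 _ (by omega) _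
            (by omega)).2.2 (g ▸ ((hs (c t)).2.2.2.2.1 ⟨q, m⟩).2 ⟨o, f', rfl⟩))⟩
        · obtain ⟨o, f, g⟩ := (hi' ⟨q, m⟩).1
          obtain ⟨t, f, f'⟩ := R_node.1 f
          exact ⟨t, by simpa [Qk] using And.intro ((bi t).2 f) (((pi t).2.1 _ (by omega) _
            (by omega)).1.2 (g ▸ ((hs (c t)).2.2.2.2.2.1 ⟨q, m⟩).2 ⟨o, f', rfl⟩))⟩
        · obtain ⟨t, f⟩ := M'
          exact ⟨t, by simpa [Qk] using ((pi t).2.1 10 (by omega) _ (by omega)).1.2 f⟩
      · exact ⟨0, fun a b c => (X ⟨a, b, c⟩).elim⟩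
    choose τ hτ using this
    refine .node _ i (fun κ q => il (s x) (s (c (τ κ q)))) hi ((sh_iff hp (fun a => t _)
      (by simp [x, hi.ne]) (fun j => by simp [x, Fin.ext_iff]) b
      fun j φ l => by simp [x, St, hi.ne]).2 t) (fun κ _ q _ _ => (pi _).2.2.2 ▸ ih _)
      fun κ a q l X => ⟨(pi _).2.2.1, ?_, hτ κ q a l X⟩
    generalize τ κ q = t
    refine ⟨fun q l => ?_, ((pi t).2.1 10 (by omega) _ (by omega)).2.2 (M t), fun a j l => ?_,
      fun κ a q l d => (pi t).2.2.1 ▸ (K κ a q l).2 ⟨t, d⟩⟩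
    · have := (pi t).2.1 (10 * q + 7) (by omega) (10 * q + 7) (by omega)
      rw [this.1, this.2, th, (hs _).1]
      exact ⟨le_rfl, le_rfl⟩
    · rw [((pi t).2.1 _ (by omega) _ (by omega)).1, ((pi t).2.1 _ (by omega) _ (by omega)).2]
      exact ⟨(lo ⟨j, l⟩).2 (sub t ((bi t).1 a) _ ((hs _).2.2.2.2.1 ⟨j, l⟩).1),
        (hi' ⟨j, l⟩).2 (sub t ((bi t).1 a) _ ((hs _).2.2.2.2.2.1 ⟨j, l⟩).1)⟩

end Pool.Agent.H.MP_b6c00a_lc
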