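import Pool.Agent.H.MP_b6c00a_lc.F
import Pool.Agent.Lib.helper21.RE

set_option autoImplicit false

namespace Pool.Agent.H.MP_b6c00a_lc

def gr (n L z : ℕ) : Rr := ot L (dg (2 * (10 * (n + 1))) z)

def In (n S : ℕ) (r : Rr) : Prop := ∃ z < (2 * (10 * (n + 1))) ^ (10 * (n + 1)), dg 2 S z = 1 ∧
  ∀ a < 10 * (n + 1), ∀ b < 10 * (n + 1), gr n (10 * (n + 1)) z a b ↔ r a b

def Wit (p n S i κ c z : ℕ) : Prop := ∃ w < (2 * (10 * (n + 1))) ^ (2 * (10 * (n + 1))),
  (∀ a < 10 * (n + 1), ∀ b < 10 * (n + 1),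
    ev (gr n (2 * (10 * (n + 1))) w) a b ↔ gr n (10 * (n + 1)) z a b) ∧
  In n S (od (gr n (2 * (10 * (n + 1))) w)) ∧ Ok p n i (gr n (2 * (10 * (n + 1))) w) ∧
  Qk i κ c (gr n (2 * (10 * (n + 1))) w)

def Cert (p n m S : ℕ) : Prop := ∀ z < (2 * (10 * (n + 1))) ^ (10 * (n + 1)),
  (Lf p n (gr n (10 * (n + 1)) z) → dg 2 S z = 1) ∧
  (∀ i < p, Sh p n i (gr n (10 * (n + 1)) z) →
    (∀ κ < 8, ∀ c ≤ n, Xx p κ c (gr n (10 * (n + 1)) z) → Wit p n S i κ c z) → dg 2 S z = 1) ∧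
  (dg 2 S z = 1 → ¬ Fn n m (gr n (10 * (n + 1)) z))

lemma ot_eq {V W : Type} [LE V] [LE W] {L : ℕ} {f : ℕ → V} {g : ℕ → W}
    (h : ∀ a < L, ∀ b < L, ot L f a b ↔ ot L g a b) : ot L f = ot L g :=
  funext₂ fun a b => propext ⟨fun k => (h a k.1 b k.2.1).1 k, fun k => (h a k.1 b k.2.1).2 k⟩

variable {p n m S : ℕ}

lemma cert_sound (h : Cert p n m S) {r : Rr} (a : Rz p n r) (z : ℕ)
    (l : z < (2 * (10 * (n + 1))) ^ (10 * (n + 1))) (e : gr n (10 * (n + 1)) z = r) :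
    dg 2 S z = 1 := by
  induction a generalizing z with
  | leaf f a => exact (h z l).1 (e ▸ a)
  | node r i F hi a _ b ih =>
    subst e
    refine (h z l).2.1 i hi a fun κ k c d X => ?_
    obtain ⟨w, f, g⟩ := cmpr le_rfl (F κ c)
    obtain ⟨y, u, v⟩ := cmpr (B := 2 * (10 * (n + 1))) (L := 10 * (n + 1)) (by omega)
      fun k => F κ c (2 * k + 1)
    rw [← od_ot] at v
    obtain ⟨b1, b2⟩ := b κ k c d X
    refine ⟨w, f, ?_⟩
    rw [gr, g, b1]
    exact ⟨fun _ _ _ _ => .rfl, ⟨y, u, ih κ k c d X y u v, fun _ _ _ _ => by rw [gr, v]⟩, b2⟩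

lemma valid_iff (hp : 0 < p) (φ : Fm p) : Valid φ ↔
    ∃ S < 2 ^ (2 * (10 * (9 * φ.code + 1 + p + 1))) ^ (10 * (9 * φ.code + 1 + p + 1)),
      Cert p (9 * φ.code + 1 + p) (9 * φ.code + 1) S := by
  classical
  have l : φ.neg.code ≤ 9 * φ.code + 1 + p := Nat.le_add_right _ _
  have hn : p ≤ 9 * φ.code + 1 + p := Nat.le_add_left _ _
  generalize 9 * φ.code + 1 + p = n at *
  refine ⟨fun V => ?_, fun ⟨S, _, h⟩ => by_contra fun V => ?_⟩
  · obtain ⟨S, a, b⟩ := dg_ex 2 ((2 * (10 * (n + 1))) ^ (10 * (n + 1)))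
      (fun z => if Rz p n (gr n (10 * (n + 1)) z) then 1 else 0) fun _ _ => by split_ifs <;> omega
    have b (z : ℕ) (l : z < (2 * (10 * (n + 1))) ^ (10 * (n + 1))) :
        dg 2 S z = 1 ↔ Rz p n (gr n (10 * (n + 1)) z) := by simp [b z l]
    refine ⟨S, a, fun z k => ⟨fun h => ?_, fun i c d e => ?_, fun h f => ?_⟩⟩
    · rw [b z k]
      rw [gr, ot_cast] at h ⊢
      exact .leaf _ h
    · choose! w _ e f g using e
      refine (b z k).2 (.node _ i (fun κ c k => (dg (2 * (10 * (n + 1))) (w κ c) k : ℚ)) c d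
        (fun κ u c v X => ?_) fun κ u c v X => ?_) <;> rw [← ot_cast]
      · obtain ⟨y, h, i, j⟩ := f κ u c v X
        simp only [gr, od_ot] at j ⊢
        exact ot_eq j ▸ (b y h).1 i
      · have := e κ u c v X
        simp only [gr, ev_ot] at this ⊢
        exact ⟨ot_eq this, g κ u c v X⟩
    · rw [b z k] at h
      rw [gr, ot_cast] at h f
      exact refute hp hn l h f V
  · obtain ⟨s, a, b⟩ := sound hp hn l V
    obtain ⟨z, u, v⟩ := cmpr (B := 2 * (10 * (n + 1))) (L := 10 * (n + 1)) (by omega) s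
    exact (h z u).2.2 (cert_sound h a z u v) (by rw [gr, v]; exact b)

open Pool.Agent.Lib.helper21.PR

attribute [local irreducible] Primrec Computable

@[fun_prop] lemma p_dg {α : Type} [Primcodable α] {f g h : α → ℕ} (a : Primrec f) (b : Primrec g)
    (c : Primrec h) : Primrec fun x => dg (f x) (g x) (h x) := by
  unfold dg; fun_prop

@[fun_prop] lemma p_gr {α : Type} [Primcodable α] {f g h k l : α → ℕ} (a : Primrec f) (b : Primrec g)
    (c : Primrec h) (d : Primrec k) (e : Primrec l) :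
    Primrec fun x => cd (gr (f x) (g x) (h x) (k x) (l x)) := by
  unfold gr ot; fun_prop

section
variable {α : Type} [Primcodable α] {f g h k l u v : α → ℕ}

@[fun_prop] lemma p_sh (a : Primrec f) (b : Primrec g) (c : Primrec h) (d : Primrec k)
    (e : Primrec l) : Primrec fun x => cd (Sh (f x) (g x) (h x) (gr (g x) (k x) (l x))) := by
  unfold Sh Bb bt; fun_prop

@[fun_prop] lemma p_qq (a : Primrec f) (b : Primrec g) (c : Primrec h) (d : Primrec k)
    (e : Primrec l) (i : Primrec u) :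
    Primrec fun x => cd (Qk (f x) (g x) (h x) (gr (k x) (l x) (u x))) := by
  unfold Qk Bb Ee bt bs od; fun_prop

@[fun_prop] lemma p_ok (a : Primrec f) (b : Primrec g) (c : Primrec h) (d : Primrec k)
    (e : Primrec l) : Primrec fun x => cd (Ok (f x) (g x) (h x) (gr (g x) (k x) (l x))) := by
  unfold Ok bt bs ev; fun_prop

@[fun_prop] lemma p_wit {w : α → ℕ} (a : Primrec f) (b : Primrec g) (c : Primrec h) (d : Primrec k)
    (e : Primrec l) (i : Primrec u) (j : Primrec w) :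
    Primrec fun x => cd (Wit (f x) (g x) (h x) (k x) (l x) (u x) (w x)) := by
  unfold Wit In od ev; fun_prop

@[fun_prop] lemma p_cert (a : Primrec f) (b : Primrec g) (c : Primrec h) (d : Primrec k) :
    Primrec fun x => cd (Cert (f x) (g x) (h x) (k x)) := by
  unfold Cert Lf Xx Fn Ee bt; fun_prop

end

theorem dec_valid (hp : 0 < p) : ComputablePred fun c => ∃ φ : Fm p, φ.code = c ∧ Valid φ := by
  have : PrimrecPred fun c => ∃ S < 2 ^ (2 * (10 * (9 * c + 1 + p + 1))) ^ (10 * (9 * c + 1 + p + 1)),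
      Cert p (9 * c + 1 + p) (9 * c + 1) S := pred (by fun_prop)
  refine this.computablePred.of_eq fun c => ⟨fun h => ?_, fun ⟨φ, a, b⟩ => a ▸ (valid_iff hp φ).1 b⟩
  obtain ⟨φ, rfl⟩ := code_surj hp c
  exact ⟨φ, rfl, (valid_iff hp φ).2 h⟩

end Pool.Agent.H.MP_b6c00a_lc
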